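import Pool.Agent.H180.RS.Stmts2
import Pool.Agent.H180.RS.Gs
import Pool.Agent.Q59.RL.FixLaw

set_option autoImplicit false

/-!
Normalised Gauss sums are an odd distribution (lemma job for helper180).
-/

namespace Pool.Agent.Q95.RS

open Finset Pool.Agent.H916R2 Pool.Agent.Q59.FS Pool.Agent.Q59.RL Pool.Agent.H180.RS

variable {ℓ m : ℕ} [hℓ : Fact ℓ.Prime] [NeZero m] {χ η : MulChar (ZMod ℓ) ℂ}
  {ψ : AddChar (ZMod ℓ) ℂ}

lemma sqrt_ne : ((Real.sqrt ℓ : ℝ) : ℂ) ≠ 0 := by
  rw [Complex.ofReal_ne_zero]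
  exact (Real.sqrt_pos.2 (by exact_mod_cast hℓ.out.pos)).ne'

omit hℓ in
lemma sqrt_mul : ((Real.sqrt ℓ : ℝ) : ℂ) * ((Real.sqrt ℓ : ℝ) : ℂ) = (ℓ : ℂ) := by
  rw [← Complex.ofReal_mul, Real.mul_self_sqrt (Nat.cast_nonneg ℓ)]
  simp

lemma nz_ne (hψ : ψ ≠ 1) (hη : η ≠ 1) : nz ψ η ≠ 0 :=
  div_ne_zero (gauss_ne hη hψ) sqrt_ne

lemma nz_mul_inv (hψ : ψ ≠ 1) (hη : η ≠ 1) (ho : Odd (orderOf η)) : nz ψ η⁻¹ * nz ψ η = 1 := by
  unfold nz
  rw [div_mul_div_comm, gauss_pair hη hψ, neg_one_eq_one ho, one_mul, sqrt_mul, ZMod.card]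
  exact div_self (by exact_mod_cast hℓ.out.ne_zero)

omit hℓ [NeZero m] in
lemma pw_cast (h : orderOf χ = m) (n : ℕ) : χ ^ (n : ZMod m).val = χ ^ n := by
  rw [ZMod.val_natCast, ← h, pow_mod_orderOf]

theorem dist (hDH : PropDH) : PropDist := by
  intro ℓ m hℓ _ hm χ ψ hψ hχ hp1
  classical
  have hm0 : m ≠ 0 := NeZero.ne m
  have hodd : ∀ n : ℕ, Odd (orderOf (χ ^ n)) := fun n => by
    apply Odd.of_dvd_nat hm
    rw [← hχ]; exact orderOf_pow_dvd n
  -- the function is odd
  have hneg : ∀ a : ZMod m, cD χ ψ (-a) = - cD χ ψ a := by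
    intro a
    unfold cD
    by_cases ha : a = 0
    · simp [ha]
    · rw [if_neg ha, if_neg (neg_ne_zero.2 ha), eq_neg_iff_add_eq_zero, pw_neg hχ,
        ← toU_mul (nz_ne hψ (inv_ne_one.2 (pw_ne_one hχ ha))) (nz_ne hψ (pw_ne_one hχ ha)),
        nz_mul_inv hψ (pw_ne_one hχ ha) (hodd _), toU_one]
  refine ⟨hneg, ?_, ?_⟩
  · intro a ha
    have h2 : IsUnit (2 : ZMod m) := by
      have : ((2 : ℕ) : ZMod m) = 2 := by norm_num
      rw [← this, ZMod.isUnit_iff_coprime]
      exact (Nat.coprime_two_left).2 hm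
    have h3 : (2 : ZMod m) * a = 0 := by rw [two_mul]; exact ha
    have h4 : a = 0 := (h2.mul_right_eq_zero).1 h3
    unfold cD
    rw [if_pos h4]
  · intro p d hp hpd a
    have hp0 : p ≠ 0 := hp.ne_zero
    have hpm : p ∣ m := ⟨d, hpd.symm⟩
    have hpodd : Odd p := Odd.of_dvd_nat hm hpm
    have hp2 : p ≠ 2 := by rintro rfl; exact absurd hpodd (by decide)
    have hd0 : d ≠ 0 := by rintro rfl; exact hm0 (by rw [← hpd, mul_zero])
    have : NeZero p := ⟨hp0⟩
    have hpdz : (p : ZMod m) * (d : ZMod m) = 0 := by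
      rw [← Nat.cast_mul, hpd, ZMod.natCast_self]
    by_cases hpa : (p : ZMod m) * a = 0
    · -- the degenerate case
      rw [hpa]
      have hc0 : cD χ ψ (0 : ZMod m) = 0 := by unfold cD; rw [if_pos rfl]
      rw [hc0]
      -- `a` is a multiple of `d`
      obtain ⟨j, hj⟩ : ∃ j : ℕ, a = (j : ZMod m) * (d : ZMod m) := by
        have h1 : ((p * a.val : ℕ) : ZMod m) = 0 := by
          push_cast; rw [ZMod.natCast_zmod_val]; exact hpa
        rw [ZMod.natCast_eq_zero_iff] at h1
        have h1' : p * d ∣ p * a.val := (dvd_of_eq hpd).trans h1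
        obtain ⟨j, hj⟩ := Nat.dvd_of_mul_dvd_mul_left hp.pos h1'
        refine ⟨j, ?_⟩
        rw [← ZMod.natCast_zmod_val a, hj]; push_cast; ring
      set F : ZMod p → Additive ℂˣ := fun u => cD χ ψ ((u.val : ZMod m) * (d : ZMod m)) with hF
      have hFc : ∀ n : ℕ, F (n : ZMod p) = cD χ ψ ((n : ZMod m) * (d : ZMod m)) := by
        intro n
        rw [hF]
        simp only
        congr 1
        rw [ZMod.val_natCast]
        conv_rhs => rw [← Nat.mod_add_div n p]
        push_cast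
        rw [add_mul, mul_assoc, mul_comm (p : ZMod m), mul_assoc, mul_comm (d : ZMod m), hpdz,
          mul_zero, add_zero]
      have h1 : ∑ i ∈ range p, cD χ ψ (a + (i : ZMod m) * (d : ZMod m)) =
          ∑ i ∈ range p, F ((j : ZMod p) + (i : ZMod p)) := by
        refine sum_congr rfl fun i _ => ?_
        rw [← Nat.cast_add, hFc, hj]
        congr 1
        push_cast; ring
      rw [h1, Pool.Agent.H916K.sum_range_zmod (fun u => F ((j : ZMod p) + u)),
        Fintype.sum_equiv (Equiv.addLeft (j : ZMod p)) (fun u => F ((j : ZMod p) + u)) F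
          (fun u => rfl),
        ← Pool.Agent.H916K.sum_range_zmod F, range_eq_Ico, ← sum_erase_add _ _ (mem_Ico.2 ⟨le_rfl, hp.pos⟩)]
      rw [hFc 0, Nat.cast_zero, zero_mul, hc0, add_zero]
      refine sum_involution (fun i _ => p - i) ?_ ?_ ?_ ?_
      · intro i hi
        have hi1 : i < p := (mem_Ico.1 (mem_of_mem_erase hi)).2
        rw [hFc, hFc, Nat.cast_sub hi1.le, sub_mul, hpdz, zero_sub, hneg, add_neg_cancel]
      · intro i hi _ heq
        have hi1 : i < p := (mem_Ico.1 (mem_of_mem_erase hi)).2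
        obtain ⟨k, hk⟩ := hpodd
        omega
      · intro i hi
        have hi1 : i < p := (mem_Ico.1 (mem_of_mem_erase hi)).2
        have hi0 : i ≠ 0 := (mem_erase.1 hi).1
        rw [mem_erase, mem_Ico]
        omega
      · intro i hi
        have hi1 : i < p := (mem_Ico.1 (mem_of_mem_erase hi)).2
        omega
    · -- the main case
      have hne : ∀ i : ℕ, a + (i : ZMod m) * (d : ZMod m) ≠ 0 := by
        intro i h
        apply hpa
        have h2 : (p : ZMod m) * (a + (i : ZMod m) * (d : ZMod m)) = (p : ZMod m) * a := by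
          rw [mul_add, mul_left_comm, hpdz, mul_zero, add_zero]
        rw [← h2, h, mul_zero]
      set η : MulChar (ZMod ℓ) ℂ := χ ^ d with hη
      have hηo : orderOf η = p := by
        rw [hη, orderOf_pow' χ hd0, hχ, ← hpd, Nat.gcd_mul_left_left, Nat.mul_div_cancel _
          (Nat.pos_of_ne_zero hd0)]
      have hval : ∀ i : ℕ, χ ^ (a + (i : ZMod m) * (d : ZMod m)).val = χ ^ a.val * η ^ i := by
        intro i
        rw [pw_add hχ, ← Nat.cast_mul, pw_cast hχ, mul_comm i d, pow_mul]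
      have hpval : χ ^ ((p : ZMod m) * a).val = (χ ^ a.val) ^ p := by
        rw [← pow_mul, mul_comm a.val p, ← pw_cast hχ (p * a.val)]
        push_cast
        rw [ZMod.natCast_zmod_val]
      have hne1 : (χ ^ a.val) ^ p ≠ 1 := by
        rw [← hpval]; exact pw_ne_one hχ hpa
      have hηi : ∀ i ∈ Ico 1 p, η ^ i ≠ 1 := by
        intro i hi h
        have h2 := orderOf_dvd_of_pow_eq_one h
        rw [hηo] at h2
        have := Nat.le_of_dvd (by have := (mem_Ico.1 hi).1; omega) h2
        have := (mem_Ico.1 hi).2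
        omega
      have hpl : p ∣ ℓ - 1 := by
        have h1 := MulChar.orderOf_dvd_card_sub_one (F := ZMod ℓ) χ
        rw [ZMod.card, hχ] at h1
        exact hpm.trans h1
      have hprod1 : ∏ i ∈ Ico 1 p, nz ψ (η ^ i) = 1 := by
        refine prod_involution (fun i _ => p - i) ?_ ?_ ?_ ?_
        · intro i hi
          have hi1 := mem_Ico.1 hi
          have h2 : η ^ (p - i) = (η ^ i)⁻¹ := by
            rw [eq_inv_iff_mul_eq_one, ← pow_add, Nat.sub_add_cancel hi1.2.le, ← hηo,
              pow_orderOf_eq_one]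
          rw [h2, mul_comm]
          refine nz_mul_inv hψ (hηi i hi) ?_
          rw [hη, ← pow_mul]; exact hodd _
        · intro i hi _ heq
          have hi1 := mem_Ico.1 hi
          obtain ⟨k, hk⟩ := hpodd
          omega
        · intro i hi
          have hi1 := mem_Ico.1 hi
          rw [mem_Ico]; omega
        · intro i hi
          have hi1 := mem_Ico.1 hi
          omega
      have hDHi := hDH ℓ p hp hp2 hpl (χ ^ a.val) η ψ hψ hηo hne1
      have hval1 : ((χ ^ a.val) ^ p)⁻¹ (p : ZMod ℓ) = 1 := by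
        have hpz : (p : ZMod ℓ) ≠ 0 := by
          intro h
          rw [ZMod.natCast_eq_zero_iff] at h
          have h3 := Nat.le_of_dvd hp.pos h
          have h4 := Nat.le_of_dvd (by have := hℓ.out.two_le; omega) hpl
          have := hℓ.out.two_le
          omega
        rw [MulChar.inv_apply', ← pow_mul, mul_comm a.val p, pow_mul]
        have h5 : ((χ ^ p) ^ a.val) (p : ZMod ℓ) = 1 := by
          rcases Nat.eq_zero_or_pos a.val with h0 | h0
          · rw [h0, pow_zero]
            exact MulChar.one_apply (isUnit_iff_ne_zero.mpr hpz)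
          · rw [MulChar.pow_apply' _ h0.ne', hp1 p hp hpm, one_pow]
        have h6 : ((χ ^ p) ^ a.val) ((p : ZMod ℓ)⁻¹) * ((χ ^ p) ^ a.val) (p : ZMod ℓ) = 1 := by
          rw [← map_mul, inv_mul_cancel₀ hpz, map_one]
        rw [h5, mul_one] at h6
        exact h6
      have hnzprod : ∏ i ∈ range p, nz ψ (χ ^ a.val * η ^ i) = nz ψ ((χ ^ a.val) ^ p) := by
        have h1 : ∏ i ∈ range p, nz ψ (χ ^ a.val * η ^ i) =
            (∏ i ∈ range p, gaussSum (χ ^ a.val * η ^ i) ψ) / ((Real.sqrt ℓ : ℝ) : ℂ) ^ p := by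
          unfold nz
          rw [prod_div_distrib, prod_const, card_range]
        have h2 : ∏ i ∈ Ico 1 p, nz ψ (η ^ i) =
            (∏ i ∈ Ico 1 p, gaussSum (η ^ i) ψ) / ((Real.sqrt ℓ : ℝ) : ℂ) ^ (p - 1) := by
          unfold nz
          rw [prod_div_distrib, prod_const, Nat.card_Ico]
        rw [h2] at hprod1
        have hs := sqrt_ne (ℓ := ℓ)
        rw [div_eq_one_iff_eq (pow_ne_zero _ hs)] at hprod1
        rw [h1, hDHi, hval1, one_mul, hprod1]
        unfold nz
        rw [div_eq_div_iff (pow_ne_zero _ hs) hs, mul_assoc, ← pow_succ,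
          Nat.sub_add_cancel hp.one_le]
      have hL : ∀ i ∈ range p, cD χ ψ (a + (i : ZMod m) * (d : ZMod m)) =
          toU (nz ψ (χ ^ a.val * η ^ i)) := by
        intro i _
        unfold cD
        rw [if_neg (hne i), hval]
      rw [sum_congr rfl hL, ← toU_prod, hnzprod]
      · unfold cD
        rw [if_neg hpa, hpval]
      · intro i _
        rw [← hval]
        exact nz_ne hψ (pw_ne_one hχ (hne i))

end Pool.Agent.Q95.RS
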